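import Mathlib
import Pool.Agent.TH497.PW.IntFlow
import Pool.Agent.TH362.FP.Pos
import Pool.Agent.Y335.FL.Main
import Pool.Agent.U875.SW.Balls

set_option autoImplicit false

/-!
# Graphs of large minimum degree and small diameter (MP_974d84_co)

Let `d ≥ 4` and `r` be integers.  The radius of a vertex is `r` if it has at least `d` neighbours,
otherwise zero.  Let `G` be a bridgeless multigraph such that every circuit of the underlying simple
graph with at most `2 r` vertices contains a vertex with fewer than `d` neighbours.  Then `G` has a
nowhere-zero 5-flow, and the characteristic polynomial of its bond matroid is positive at all integers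
`q ≥ 5`, if `G` does not contain `k` vertices such that the distance of any two is at least `D` plus
their radii, where `D` is one of `3, 4, 5, 6` and `k` is the least integer which is greater than
`(9 d - 30) / (10 (d - 3))` times `18, 13, 4, 3`; for `d = 4` these are `11, 8, 3, 2`.

For example, `G` has a nowhere-zero 5-flow if
* all vertices have at least four neighbours and the diameter is at most seven, or
* all vertices have at least five neighbours and of any three vertices two have distance at most
  seven, or
* all vertices have at least four neighbours, the underlying simple graph has no circuit with at most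
  `2 r` vertices and the diameter is at most `2 r + 5`.
The order, the degrees and the number of the small cuts are arbitrary.  (Without a condition on the
degrees, the starting results need radius five.)

Proof.  Let `H` be a quotient of `G` without nowhere-zero 5-flow all of whose proper quotients have
such flows.  By the starting library it has girth at least twelve, all vertices which are not isolated
have three neighbours, and the `N` vertices which are not isolated span at most `(5 N - 6) / 3` edges
(`Y335/FL`, `Y358/IN`, `N410/FV`).  New: the number of the pairs of an edge and an end of degree less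
than `d` is greater than the part `(9 d - 30) / (10 (d - 3))` of the number of all pairs, and the cubic
tree can be mapped to `H`, such that the neighbours of a vertex are mapped to different neighbours, with
more than this part of the vertices of a given set mapped to vertices of degree less than `d`
(`U875/SW`: averages over walks without backtracking).  As there are no short circuits, the distances
in `H` are at least `min (t, 12 - t)`, where `t` is the distance in the tree.  A class with at least
three and fewer than `d` boundary edges contains a ball, with its radius, around some vertex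
(`U605/DD/Lift.lean` of helper605, used there for 4-flows), and so the distance of such vertices in
two classes is at least the distance in `H` plus the two radii.
-/

namespace Pool.Agent.Results.MP_974d84_co.DegreesAndDiameter

open Pool.Agent.TH497.PW Pool.Agent.U605.DD Pool.Agent.U875.SW

variable {V E : Type}

/-- The edges with exactly one end in `X`. -/
def boundary [DecidableEq V] [Fintype E] (src dst : E → V) (X : Finset V) : Finset E :=
  Finset.univ.filter (fun e => ¬ (src e ∈ X ↔ dst e ∈ X))

/-- Kirchhoff's law. -/
def IsFlow [DecidableEq V] [Fintype E] (src dst : E → V) (f : E → ℤ) : Prop :=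
  ∀ v : V, ∑ e ∈ Finset.univ.filter (fun e => src e = v), f e
    = ∑ e ∈ Finset.univ.filter (fun e => dst e = v), f e

/-- The number of the components of the graph with the vertices `V` and the edges `A`. -/
noncomputable def components (src dst : E → V) (A : Finset E) : ℕ :=
  Nat.card (SimpleGraph.fromRel
    (fun u v : V => ∃ e ∈ A, src e = u ∧ dst e = v)).ConnectedComponent

/-- The rank of `A` in the cycle matroid of the graph. -/
noncomputable def cycleRank [Fintype V] (src dst : E → V) (A : Finset E) : ℕ :=
  Fintype.card V - components src dst A

/-- The rank of `A` in the bond matroid of the graph (the dual of the cycle matroid). -/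
noncomputable def bondRank [Fintype V] [Fintype E] [DecidableEq E] (src dst : E → V)
    (A : Finset E) : ℕ :=
  A.card + cycleRank src dst Aᶜ - cycleRank src dst Finset.univ

/-- The characteristic polynomial of the bond matroid at the integer `x`. -/
noncomputable def bondCharPoly [Fintype V] [Fintype E] [DecidableEq E] (src dst : E → V)
    (x : ℤ) : ℤ :=
  ∑ A : Finset E, (-1) ^ A.card * x ^ (bondRank src dst Finset.univ - bondRank src dst A)

theorem isFlow_iff [DecidableEq V] [Fintype E] (src dst : E → V) (f : E → ℤ) :
    IsFlow src dst f ↔
      ∀ v, ∑ e, f e * ((if src e = v then 1 else 0) - (if dst e = v then 1 else 0)) = 0 := by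
  unfold IsFlow
  refine forall_congr' fun v => ?_
  rw [Finset.sum_filter, Finset.sum_filter, ← sub_eq_zero, ← Finset.sum_sub_distrib]
  have : ∀ e, (if src e = v then f e else 0) - (if dst e = v then f e else 0)
      = f e * ((if src e = v then 1 else 0) - (if dst e = v then 1 else 0)) := by
    intro e
    by_cases h1 : src e = v <;> by_cases h2 : dst e = v <;> simp [h1, h2]
  rw [Finset.sum_congr rfl (fun e _ => this e)]

theorem nzf [Fintype V] [DecidableEq V] [Fintype E] [DecidableEq E] (src dst : E → V)
    (h : Pool.Agent.TH676.Z.FlowOn src dst ∅ ∅) : NZF src dst := by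
  obtain ⟨f, h1, _, h3⟩ := h
  refine ⟨f, fun e => h3 e (Finset.notMem_empty _) (Finset.notMem_empty _), fun x => ?_⟩
  rw [← h1 x]
  unfold Pool.Agent.TH676.Z.bd
  refine Finset.sum_congr rfl fun e _ => ?_
  unfold ic
  by_cases h4 : src e = x <;> by_cases h5 : dst e = x <;> simp [h4, h5]

theorem charPoly_pos [Fintype V] [DecidableEq V] [Fintype E] [DecidableEq E] (src dst : E → V)
    (f : E → ℤ) (h1 : IsFlow src dst f) (h2 : ∀ e, 1 ≤ |f e| ∧ |f e| ≤ 4) (q : ℕ) (hq : 5 ≤ q) :
    0 < bondCharPoly src dst q :=
  Pool.Agent.TH362.FP.chr_pos src dst f h2 h1 q hq

/-- For some `d ≥ 4` and `r` every circuit of the underlying simple graph with at most `2 r` vertices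
contains a vertex with fewer than `d` neighbours, and there are no `k` vertices such that the distance
of any two is at least `D` plus their radii, where `D` is `3, 4, 5, 6` and `k` is the least integer
greater than `(9 d - 30) / (10 (d - 3))` times `18, 13, 4, 3`. -/
def Condition [Fintype V] [DecidableEq V] [Fintype E] [DecidableEq E] (src dst : E → V) : Prop :=
  ∃ d r, 4 ≤ d ∧ (∀ (v : V) (c : (under src dst).Walk v v), c.IsCycle → c.length ≤ 2 * r →
      ∃ w ∈ c.support, (nbrs src dst w).card < d) ∧
    (¬ FarBalls src dst d r (many d 18) 3 ∨ ¬ FarBalls src dst d r (many d 13) 4 ∨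
      ¬ FarBalls src dst d r (many d 4) 5 ∨ ¬ FarBalls src dst d r (many d 3) 6)

/-- Every vertex has at least four neighbours, and any two vertices are joined by a walk with at most
seven edges. -/
def FourNeighboursDiameterSeven [Fintype V] [DecidableEq V] [Fintype E] [DecidableEq E]
    (src dst : E → V) : Prop :=
  (∀ v, 4 ≤ (nbrs src dst v).card) ∧ ∀ x y, Within src dst 7 x y

theorem condition_of_diameter [Fintype V] [DecidableEq V] [Fintype E] [DecidableEq E]
    {src dst : E → V} (h : FourNeighboursDiameterSeven src dst) : Condition src dst := by
  obtain ⟨h4, h7⟩ := h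
  refine ⟨4, 1, le_refl _, fun v c hc hl => ?_, Or.inr (Or.inr (Or.inr ?_))⟩
  · have := hc.three_le_length
    omega
  · rintro ⟨x, hx⟩
    have h2 : many 4 3 = 2 := by decide
    have hr : ∀ v, radius src dst 4 1 v = 1 := by
      intro v
      unfold radius
      rw [if_pos (h4 v)]
    have h3 := hx ⟨0, by rw [h2]; omega⟩ ⟨1, by rw [h2]; omega⟩ (by
      intro h
      exact absurd (congrArg Fin.val h) (by norm_num))
    unfold Pool.Agent.U605.DD.Apart at h3
    rw [hr, hr] at h3
    exact h3 (h7 _ _)

/-- A multigraph without cut with exactly one edge which satisfies the condition (for example, in which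
all vertices have at least four neighbours and the diameter is at most seven) has a nowhere-zero
5-flow, and the characteristic polynomial of its bond matroid is positive at all `q ≥ 5`. -/
theorem result :
    ∀ (V E : Type) [Fintype V] [DecidableEq V] [Fintype E] [DecidableEq E] (src dst : E → V),
      Condition src dst →
      (∀ Y : Finset V, (boundary src dst Y).card ≠ 1) →
      (∃ f : E → ℤ, IsFlow src dst f ∧ ∀ e, 1 ≤ |f e| ∧ |f e| ≤ 4) ∧
      ∀ q : ℕ, 5 ≤ q → 0 < bondCharPoly src dst q := by
  intro V E _ _ _ _ src dst hC hb
  have hbr : Pool.Agent.TH676.Z.Br src dst ∅ ∅ :=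
    fun Y _ => by rw [Finset.sdiff_empty]; exact hb Y
  have hfl : Pool.Agent.TH676.Z.FlowOn src dst ∅ ∅ := by
    by_contra hn
    obtain ⟨d, r, hd, hcyc, h⟩ := hC
    have key : ∀ (D : ℕ), 1 ≤ D → ∀ L : List (List (Fin 3)), L ≠ [] →
        (∀ w ∈ L, Pool.Agent.U875.SP.IsVertex w) → farL D L →
        FarBalls src dst d r (many d L.length) D := fun D hD L hL hv hp =>
      farBalls_of Pool.Agent.Y335.FL.contract_all src dst hbr hn hd hD hcyc hL hv hp
    rcases h with h | h | h | h
    · exact h (key 3 (by norm_num) Pool.Agent.U875.SP.v18 (by decide) v18_ok.1 v18_ok.2)
    · exact h (key 4 (by norm_num) Pool.Agent.U875.SP.v13 (by decide) v13_ok.1 v13_ok.2)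
    · exact h (key 5 (by norm_num) Pool.Agent.U875.SP.v4 (by decide) v4_ok.1 v4_ok.2)
    · exact h (key 6 (by norm_num) Pool.Agent.U875.SP.v3 (by decide) v3_ok.1 v3_ok.2)
  obtain ⟨F, hF, hF0⟩ := int_flow src dst (nzf src dst hfl)
  have hF1 := (isFlow_iff src dst F).mpr hF0
  exact ⟨⟨F, hF1, hF⟩, fun q hq => charPoly_pos src dst F hF1 hF q hq⟩

end Pool.Agent.Results.MP_974d84_co.DegreesAndDiameter
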