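import Mathlib
import Pool.Agent.TH497.PW.IntFlow
import Pool.Agent.TH362.FP.Pos
import Pool.Agent.Y335.FL.Main
import Pool.Agent.U659.MT.Count

set_option autoImplicit false

/-!
# Graphs without 63 disjoint paths between vertices of degree at least three (MP_974d84_co)

Let `G` be a bridgeless multigraph without 63 pairwise disjoint connected sets of vertices each of
which contains two vertices of degree at least three (equivalently, without 63 disjoint paths whose
two ends are different vertices of degree at least three).  Then `G` has a nowhere-zero 5-flow, and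
the characteristic polynomial of its bond matroid is positive at all integers `q ≥ 5`.

In particular this holds for all bridgeless graphs without a matching of 63 edges, and for those
with at most 125 vertices of degree at least three.  The number 63 cannot be raised by the method:
Tutte's 12-cage has 126 vertices and a perfect matching.

Proof.  The class is closed under contractions.  Let `H` be a counterexample with as few edges as
possible.  Circuits with at most eleven edges can be contracted (library `Y335/FL` of helper335),
hence `H` has girth at least twelve and all degrees are at least three (apart from isolated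
vertices).  Let `D` be the maximum degree, `m` the number of edges and `n` the number of the
vertices which are not isolated; then `m ≥ 63 D` (library) and `n ≥ 126`.  If `H` has no 63 disjoint
edges, then the theorem of Tutte and Berge gives a set `A` and disjoint odd sets `O` closed in
`H - A`, at least `|A| + n - 125` of them.  So each of them has at most 125 vertices, and it spans at
most `D (|O| - 1) / 2` edges: for `D ≥ 4` because sets with at most 125 vertices are 2-degenerate
(Moore bound), and for `D = 3` because the boundary of `O` has an odd number of edges, and not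
one.  Counting the edges with an end in `A`, those in the sets `O` and the others one gets
`2 m ≤ 125 D`, a contradiction.
-/

namespace Pool.Agent.Results.MP_974d84_co.DisjointPaths

open Pool.Agent.TH497.PW

variable {V E : Type}

/-- The edges with exactly one end in `X`. -/
def boundary [DecidableEq V] [Fintype E] (src dst : E → V) (X : Finset V) : Finset E :=
  Finset.univ.filter (fun e => ¬ (src e ∈ X ↔ dst e ∈ X))

/-- Kirchhoff's law. -/
def IsFlow [DecidableEq V] [Fintype E] (src dst : E → V) (f : E → ℤ) : Prop :=
  ∀ v : V, ∑ e ∈ Finset.univ.filter (fun e => src e = v), f e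
    = ∑ e ∈ Finset.univ.filter (fun e => dst e = v), f e

/-- The degree of `v`; loops are not counted. -/
def properDegree [DecidableEq V] [Fintype E] (src dst : E → V) (v : V) : ℕ :=
  (Finset.univ.filter (fun e => src e ≠ dst e ∧ (src e = v ∨ dst e = v))).card

/-- The number of the components of the graph with the vertices `V` and the edges `A`. -/
noncomputable def components (src dst : E → V) (A : Finset E) : ℕ :=
  Nat.card (SimpleGraph.fromRel
    (fun u v : V => ∃ e ∈ A, src e = u ∧ dst e = v)).ConnectedComponent

/-- The rank of `A` in the cycle matroid of the graph. -/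
noncomputable def cycleRank [Fintype V] (src dst : E → V) (A : Finset E) : ℕ :=
  Fintype.card V - components src dst A

/-- The rank of `A` in the bond matroid of the graph (the dual of the cycle matroid). -/
noncomputable def bondRank [Fintype V] [Fintype E] [DecidableEq E] (src dst : E → V)
    (A : Finset E) : ℕ :=
  A.card + cycleRank src dst Aᶜ - cycleRank src dst Finset.univ

/-- The characteristic polynomial of the bond matroid at the integer `x`. -/
noncomputable def bondCharPoly [Fintype V] [Fintype E] [DecidableEq E] (src dst : E → V)
    (x : ℤ) : ℤ :=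
  ∑ A : Finset E, (-1) ^ A.card * x ^ (bondRank src dst Finset.univ - bondRank src dst A)

theorem isFlow_iff [DecidableEq V] [Fintype E] (src dst : E → V) (f : E → ℤ) :
    IsFlow src dst f ↔
      ∀ v, ∑ e, f e * ((if src e = v then 1 else 0) - (if dst e = v then 1 else 0)) = 0 := by
  unfold IsFlow
  refine forall_congr' fun v => ?_
  rw [Finset.sum_filter, Finset.sum_filter, ← sub_eq_zero, ← Finset.sum_sub_distrib]
  have : ∀ e, (if src e = v then f e else 0) - (if dst e = v then f e else 0)
      = f e * ((if src e = v then 1 else 0) - (if dst e = v then 1 else 0)) := by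
    intro e
    by_cases h1 : src e = v <;> by_cases h2 : dst e = v <;> simp [h1, h2]
  rw [Finset.sum_congr rfl (fun e _ => this e)]

theorem nzf [Fintype V] [DecidableEq V] [Fintype E] [DecidableEq E] (src dst : E → V)
    (h : Pool.Agent.TH676.Z.FlowOn src dst ∅ ∅) : NZF src dst := by
  obtain ⟨f, h1, _, h3⟩ := h
  refine ⟨f, fun e => h3 e (Finset.notMem_empty _) (Finset.notMem_empty _), fun x => ?_⟩
  rw [← h1 x]
  unfold Pool.Agent.TH676.Z.bd
  refine Finset.sum_congr rfl fun e _ => ?_
  unfold ic
  by_cases h4 : src e = x <;> by_cases h5 : dst e = x <;> simp [h4, h5]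

theorem charPoly_pos [Fintype V] [DecidableEq V] [Fintype E] [DecidableEq E] (src dst : E → V)
    (f : E → ℤ) (h1 : IsFlow src dst f) (h2 : ∀ e, 1 ≤ |f e| ∧ |f e| ≤ 4) (q : ℕ) (hq : 5 ≤ q) :
    0 < bondCharPoly src dst q :=
  Pool.Agent.TH362.FP.chr_pos src dst f h2 h1 q hq

/-- `X` is connected: for every part `Y` of `X` which is not empty and not all of `X` there is an
edge between `Y` and the rest of `X`. -/
def IsConnected (src dst : E → V) (X : Finset V) : Prop :=
  ∀ Y ⊆ X, Y.Nonempty → Y ≠ X →
    ∃ e, (src e ∈ Y ∧ dst e ∈ X ∧ dst e ∉ Y) ∨ (dst e ∈ Y ∧ src e ∈ X ∧ src e ∉ Y)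

/-- `X` is connected and contains two different vertices of degree at least three. -/
def JoinsBranchVertices [DecidableEq V] [Fintype E] (src dst : E → V) (X : Finset V) : Prop :=
  IsConnected src dst X ∧
    ∃ x ∈ X, ∃ y ∈ X, x ≠ y ∧ 3 ≤ properDegree src dst x ∧ 3 ≤ properDegree src dst y

theorem result :
    ∀ (V E : Type) [Fintype V] [DecidableEq V] [Fintype E] [DecidableEq E] (src dst : E → V),
      (∀ F : Finset (Finset V), (∀ X ∈ F, JoinsBranchVertices src dst X) →
        (∀ X ∈ F, ∀ Y ∈ F, X ≠ Y → Disjoint X Y) → F.card ≤ 62) →
      (∀ Y : Finset V, (boundary src dst Y).card ≠ 1) →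
      (∃ f : E → ℤ, IsFlow src dst f ∧ ∀ e, 1 ≤ |f e| ∧ |f e| ≤ 4) ∧
      ∀ q : ℕ, 5 ≤ q → 0 < bondCharPoly src dst q := by
  intro V E _ _ _ _ src dst hF hb
  have hcl : Pool.Agent.U659.MT.ClP 62 src dst := fun F h1 h2 => hF F h1 h2
  have hfl := Pool.Agent.U659.MT.flow_of_ClP src dst hcl
    (fun Y _ => by rw [Finset.sdiff_empty]; exact hb Y)
  obtain ⟨F, hF, hF0⟩ := int_flow src dst (nzf src dst hfl)
  have hF1 := (isFlow_iff src dst F).mpr hF0
  exact ⟨⟨F, hF1, hF⟩, fun q hq => charPoly_pos src dst F hF1 hF q hq⟩

end Pool.Agent.Results.MP_974d84_co.DisjointPaths
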