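import Mathlib
import Pool.Agent.TH497.PW.IntFlow
import Pool.Agent.TH362.FP.Pos
import Pool.Agent.Y335.FL.Main
import Pool.Agent.U875.SP.Main

set_option autoImplicit false

/-!
# Packings of vertices and edges (MP_974d84_co)

Let `G` be a bridgeless multigraph without nowhere-zero 5-flow.  Then the infinite cubic tree `T` is
spread over `G`: there are classes `X w` of vertices of `G`, `w` a vertex of `T`, such that classes
of adjacent vertices of `T` are joined by an edge of `G`, and the vertices in `X a` have distance at
least `min (t, 12 - t)` from those in `X b`, where `t` is the distance of `a` and `b` in `T`.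

So `G` has a nowhere-zero 5-flow, and the characteristic polynomial of its bond matroid is positive
at all integers `q ≥ 5`, if `G` does not contain
* 18 vertices with pairwise distances at least 3, or
* 13 vertices with pairwise distances at least 4, or
* 4 vertices with pairwise distances at least 5, or
* 3 vertices with pairwise distances at least 6, or
* 27 edges (not loops) with pairwise distances at least 2 (an induced matching), or
* 9 edges with pairwise distances at least 3, or
* 6 edges with pairwise distances at least 4, or
* 2 edges with distance at least 5.
The order, the degrees, the connectivity and the independence number are arbitrary.  (The starting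
results cover independence number at most 62, domination number at most 31 and radius at most five.
If, for instance, there are no four vertices with pairwise distances at least 5, then `G` is covered
by three balls of radius four; the starting result on balls allows two such balls.)

Proof.  Let `H` be a quotient of `G` without nowhere-zero 5-flow all of whose proper quotients have
such flows.  By the starting library (`Y335/FL`, `Y358/IN`) circuits with at most eleven edges and
edges of cuts with two edges can be contracted; so `H` has girth at least twelve, and the vertices
which are not isolated have three neighbours.  Choose a vertex `x` which is not isolated, and map the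
cubic tree to `H` such that the neighbours of a vertex are mapped to different neighbours.  A path of
length `t ≤ 11` of the tree is mapped to a walk without backtracking, which is a path, because there
is no circuit with at most eleven edges; for the same reason every other path between its ends has
length at least `12 - t`.  Distances in `G` are at least the distances of the classes in `H`.
The packings are sets of vertices and edges of the ball of radius five around an edge of the tree
(126 vertices), for which `min (t, 12 - t)` is large for all pairs; they are checked by the kernel.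
-/

namespace Pool.Agent.Results.MP_974d84_co.FarPackings

open Pool.Agent.TH497.PW Pool.Agent.U875.SP

variable {V E : Type}

/-- The edges with exactly one end in `X`. -/
def boundary [DecidableEq V] [Fintype E] (src dst : E → V) (X : Finset V) : Finset E :=
  Finset.univ.filter (fun e => ¬ (src e ∈ X ↔ dst e ∈ X))

/-- Kirchhoff's law. -/
def IsFlow [DecidableEq V] [Fintype E] (src dst : E → V) (f : E → ℤ) : Prop :=
  ∀ v : V, ∑ e ∈ Finset.univ.filter (fun e => src e = v), f e
    = ∑ e ∈ Finset.univ.filter (fun e => dst e = v), f e

/-- The number of the components of the graph with the vertices `V` and the edges `A`. -/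
noncomputable def components (src dst : E → V) (A : Finset E) : ℕ :=
  Nat.card (SimpleGraph.fromRel
    (fun u v : V => ∃ e ∈ A, src e = u ∧ dst e = v)).ConnectedComponent

/-- The rank of `A` in the cycle matroid of the graph. -/
noncomputable def cycleRank [Fintype V] (src dst : E → V) (A : Finset E) : ℕ :=
  Fintype.card V - components src dst A

/-- The rank of `A` in the bond matroid of the graph (the dual of the cycle matroid). -/
noncomputable def bondRank [Fintype V] [Fintype E] [DecidableEq E] (src dst : E → V)
    (A : Finset E) : ℕ :=
  A.card + cycleRank src dst Aᶜ - cycleRank src dst Finset.univ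

/-- The characteristic polynomial of the bond matroid at the integer `x`. -/
noncomputable def bondCharPoly [Fintype V] [Fintype E] [DecidableEq E] (src dst : E → V)
    (x : ℤ) : ℤ :=
  ∑ A : Finset E, (-1) ^ A.card * x ^ (bondRank src dst Finset.univ - bondRank src dst A)

theorem isFlow_iff [DecidableEq V] [Fintype E] (src dst : E → V) (f : E → ℤ) :
    IsFlow src dst f ↔
      ∀ v, ∑ e, f e * ((if src e = v then 1 else 0) - (if dst e = v then 1 else 0)) = 0 := by
  unfold IsFlow
  refine forall_congr' fun v => ?_
  rw [Finset.sum_filter, Finset.sum_filter, ← sub_eq_zero, ← Finset.sum_sub_distrib]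
  have : ∀ e, (if src e = v then f e else 0) - (if dst e = v then f e else 0)
      = f e * ((if src e = v then 1 else 0) - (if dst e = v then 1 else 0)) := by
    intro e
    by_cases h1 : src e = v <;> by_cases h2 : dst e = v <;> simp [h1, h2]
  rw [Finset.sum_congr rfl (fun e _ => this e)]

theorem nzf [Fintype V] [DecidableEq V] [Fintype E] [DecidableEq E] (src dst : E → V)
    (h : Pool.Agent.TH676.Z.FlowOn src dst ∅ ∅) : NZF src dst := by
  obtain ⟨f, h1, _, h3⟩ := h
  refine ⟨f, fun e => h3 e (Finset.notMem_empty _) (Finset.notMem_empty _), fun x => ?_⟩
  rw [← h1 x]
  unfold Pool.Agent.TH676.Z.bd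
  refine Finset.sum_congr rfl fun e _ => ?_
  unfold ic
  by_cases h4 : src e = x <;> by_cases h5 : dst e = x <;> simp [h4, h5]

theorem charPoly_pos [Fintype V] [DecidableEq V] [Fintype E] [DecidableEq E] (src dst : E → V)
    (f : E → ℤ) (h1 : IsFlow src dst f) (h2 : ∀ e, 1 ≤ |f e| ∧ |f e| ≤ 4) (q : ℕ) (hq : 5 ≤ q) :
    0 < bondCharPoly src dst q :=
  Pool.Agent.TH362.FP.chr_pos src dst f h2 h1 q hq

/-- The cubic tree is not spread over the graph, or the graph does not contain `k` vertices with
pairwise distances at least `d`, where `(k, d)` is one of `(18, 3)`, `(13, 4)`, `(4, 5)`, `(3, 6)`, or it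
does not contain `k` edges (not loops) with pairwise distances at least `d`, where `(k, d)` is one of
`(27, 2)`, `(9, 3)`, `(6, 4)`, `(2, 5)`. -/
def Condition (src dst : E → V) : Prop :=
  ¬ Spread src dst ∨ ¬ FarVertices src dst 18 3 ∨ ¬ FarVertices src dst 13 4 ∨
    ¬ FarVertices src dst 4 5 ∨ ¬ FarVertices src dst 3 6 ∨ ¬ FarEdges src dst 27 2 ∨
    ¬ FarEdges src dst 9 3 ∨ ¬ FarEdges src dst 6 4 ∨ ¬ FarEdges src dst 2 5

theorem Condition.not_spread [Fintype V] [DecidableEq V] [Fintype E] [DecidableEq E]
    {src dst : E → V} (h : Condition src dst) : ¬ Spread src dst := by
  intro hS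
  rcases h with h | h | h | h | h | h | h | h | h
  · exact h hS
  · exact h (v18_far hS)
  · exact h (v13_far hS)
  · exact h (v4_far hS)
  · exact h (v3_far hS)
  · exact h (e27_far hS)
  · exact h (e9_far hS)
  · exact h (e6_far hS)
  · exact h (e2_far hS)

/-- A multigraph without cut with exactly one edge which satisfies the condition has a nowhere-zero
5-flow, and the characteristic polynomial of its bond matroid is positive at all `q ≥ 5`. -/
theorem result :
    ∀ (V E : Type) [Fintype V] [DecidableEq V] [Fintype E] [DecidableEq E] (src dst : E → V),
      Condition src dst →
      (∀ Y : Finset V, (boundary src dst Y).card ≠ 1) →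
      (∃ f : E → ℤ, IsFlow src dst f ∧ ∀ e, 1 ≤ |f e| ∧ |f e| ≤ 4) ∧
      ∀ q : ℕ, 5 ≤ q → 0 < bondCharPoly src dst q := by
  intro V E _ _ _ _ src dst hC hb
  have hfl : Pool.Agent.TH676.Z.FlowOn src dst ∅ ∅ := by
    by_contra hn
    exact hC.not_spread (spread_of Pool.Agent.Y335.FL.contract_all src dst
      (fun Y _ => by rw [Finset.sdiff_empty]; exact hb Y) hn)
  obtain ⟨F, hF, hF0⟩ := int_flow src dst (nzf src dst hfl)
  have hF1 := (isFlow_iff src dst F).mpr hF0
  exact ⟨⟨F, hF1, hF⟩, fun q hq => charPoly_pos src dst F hF1 hF q hq⟩

end Pool.Agent.Results.MP_974d84_co.FarPackings
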