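import Mathlib
import Pool.Agent.TH497.PW.IntFlow
import Pool.Agent.TH362.FP.Pos
import Pool.Agent.Y335.FL.Main
import Pool.Agent.U659.IM.Ind

set_option autoImplicit false

/-!
# Induced minors of counterexamples to the 5-flow conjecture (MP_974d84_co)

Let `T` be the tree with 126 vertices which consists of two complete binary trees of depth five and
an edge between their roots.  Let `G` be a bridgeless multigraph which has no induced minor `K` of
girth at least twelve with the vertices of `T` and with `T ⊆ K` such that every branch set contains
a vertex of degree at least three of `G`.  Then `G` has a nowhere-zero 5-flow, and the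
characteristic polynomial of its bond matroid is positive at all integers `q ≥ 5`.

(Branch sets are disjoint connected sets of vertices, one for each vertex of `T`; two vertices of `K`
are adjacent if and only if some edge of `G` joins their branch sets.  Such a graph `K` is bipartite,
has maximum degree three, and its edges outside of `T` join leaves of `T` on different sides.)

This contains the starting results `ExcludedTree` (the tree `T` is not a minor) and
`IndependenceNumber` (`K` is bipartite: choose one vertex of degree at least three in each branch
set).  New cases, choosing vertices in the branch sets in the same way: `G` has a nowhere-zero 5-flow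
if no 126 of its vertices of degree at least three induce a bipartite graph of maximum degree at most
three and girth at least twelve, for example if all induced forests contain at most 93 vertices of
degree at least three (`K` becomes a forest when the 32 leaves on one side are deleted; for Tutte's
12-cage there is a forest with 94 vertices).

Proof.  An induced minor of a contraction of `G` is an induced minor of `G`, and a class of the
contraction which has degree at least three contains a vertex of degree at least three.  So the
class is closed under contractions.  Let `H` be a counterexample with as few edges as possible.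
Circuits with at most eleven edges can be contracted (library `Y335/FL` of helper335); hence `H` has
girth at least twelve and all degrees are at least three (apart from isolated vertices).  Then the
tree `T` is a subgraph of `H` (library `H173FL/Tree`), and its vertices span an induced subgraph of
girth at least twelve.
-/

namespace Pool.Agent.Results.MP_974d84_co.InducedMinor

open Pool.Agent.TH497.PW

variable {V E : Type}

/-- The edges with exactly one end in `X`. -/
def boundary [DecidableEq V] [Fintype E] (src dst : E → V) (X : Finset V) : Finset E :=
  Finset.univ.filter (fun e => ¬ (src e ∈ X ↔ dst e ∈ X))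

/-- Kirchhoff's law. -/
def IsFlow [DecidableEq V] [Fintype E] (src dst : E → V) (f : E → ℤ) : Prop :=
  ∀ v : V, ∑ e ∈ Finset.univ.filter (fun e => src e = v), f e
    = ∑ e ∈ Finset.univ.filter (fun e => dst e = v), f e

/-- The degree of `v`; loops are not counted. -/
def properDegree [DecidableEq V] [Fintype E] (src dst : E → V) (v : V) : ℕ :=
  (Finset.univ.filter (fun e => src e ≠ dst e ∧ (src e = v ∨ dst e = v))).card

/-- The number of the components of the graph with the vertices `V` and the edges `A`. -/
noncomputable def components (src dst : E → V) (A : Finset E) : ℕ :=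
  Nat.card (SimpleGraph.fromRel
    (fun u v : V => ∃ e ∈ A, src e = u ∧ dst e = v)).ConnectedComponent

/-- The rank of `A` in the cycle matroid of the graph. -/
noncomputable def cycleRank [Fintype V] (src dst : E → V) (A : Finset E) : ℕ :=
  Fintype.card V - components src dst A

/-- The rank of `A` in the bond matroid of the graph (the dual of the cycle matroid). -/
noncomputable def bondRank [Fintype V] [Fintype E] [DecidableEq E] (src dst : E → V)
    (A : Finset E) : ℕ :=
  A.card + cycleRank src dst Aᶜ - cycleRank src dst Finset.univ

/-- The characteristic polynomial of the bond matroid at the integer `x`. -/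
noncomputable def bondCharPoly [Fintype V] [Fintype E] [DecidableEq E] (src dst : E → V)
    (x : ℤ) : ℤ :=
  ∑ A : Finset E, (-1) ^ A.card * x ^ (bondRank src dst Finset.univ - bondRank src dst A)

theorem isFlow_iff [DecidableEq V] [Fintype E] (src dst : E → V) (f : E → ℤ) :
    IsFlow src dst f ↔
      ∀ v, ∑ e, f e * ((if src e = v then 1 else 0) - (if dst e = v then 1 else 0)) = 0 := by
  unfold IsFlow
  refine forall_congr' fun v => ?_
  rw [Finset.sum_filter, Finset.sum_filter, ← sub_eq_zero, ← Finset.sum_sub_distrib]
  have : ∀ e, (if src e = v then f e else 0) - (if dst e = v then f e else 0)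
      = f e * ((if src e = v then 1 else 0) - (if dst e = v then 1 else 0)) := by
    intro e
    by_cases h1 : src e = v <;> by_cases h2 : dst e = v <;> simp [h1, h2]
  rw [Finset.sum_congr rfl (fun e _ => this e)]

theorem nzf [Fintype V] [DecidableEq V] [Fintype E] [DecidableEq E] (src dst : E → V)
    (h : Pool.Agent.TH676.Z.FlowOn src dst ∅ ∅) : NZF src dst := by
  obtain ⟨f, h1, _, h3⟩ := h
  refine ⟨f, fun e => h3 e (Finset.notMem_empty _) (Finset.notMem_empty _), fun x => ?_⟩
  rw [← h1 x]
  unfold Pool.Agent.TH676.Z.bd
  refine Finset.sum_congr rfl fun e _ => ?_
  unfold ic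
  by_cases h4 : src e = x <;> by_cases h5 : dst e = x <;> simp [h4, h5]

theorem charPoly_pos [Fintype V] [DecidableEq V] [Fintype E] [DecidableEq E] (src dst : E → V)
    (f : E → ℤ) (h1 : IsFlow src dst f) (h2 : ∀ e, 1 ≤ |f e| ∧ |f e| ≤ 4) (q : ℕ) (hq : 5 ≤ q) :
    0 < bondCharPoly src dst q :=
  Pool.Agent.TH362.FP.chr_pos src dst f h2 h1 q hq

/-- `X` is connected: for every part `Y` of `X` which is not empty and not all of `X` there is an
edge between `Y` and the rest of `X`. -/
def IsConnected (src dst : E → V) (X : Finset V) : Prop :=
  ∀ Y ⊆ X, Y.Nonempty → Y ≠ X →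
    ∃ e, (src e ∈ Y ∧ dst e ∈ X ∧ dst e ∉ Y) ∨ (dst e ∈ Y ∧ src e ∈ X ∧ src e ∉ Y)

/-- The vertices of the tree `T`: a side and a word with at most five letters. -/
abbrev Address : Type := {t : Bool × List Bool // t.2.length ≤ 5}

/-- The edges of the tree `T`: the roots `(false, [])` and `(true, [])` of the two binary trees are
adjacent, and `(b, w)` is adjacent to its children `(b, false :: w)` and `(b, true :: w)` if the word
`w` has less than five letters. -/
inductive TreeEdge : Bool × List Bool → Bool × List Bool → Prop
  | root : TreeEdge (false, []) (true, [])
  | child (b c : Bool) (w : List Bool) (h : w.length < 5) : TreeEdge (b, w) (b, c :: w)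

/-- Some edge joins the two sets of vertices. -/
def Joined (src dst : E → V) (X Y : Finset V) : Prop :=
  ∃ e, (src e ∈ X ∧ dst e ∈ Y) ∨ (dst e ∈ X ∧ src e ∈ Y)

/-- The graph on the vertices of `T` in which two different vertices are adjacent if and only if some
edge joins their branch sets. -/
def branchGraph (src dst : E → V) (C : Address → Finset V) : SimpleGraph Address where
  Adj t t' := t ≠ t' ∧ Joined src dst (C t) (C t')
  symm := ⟨fun t t' h => by
    obtain ⟨h1, e, h2⟩ := h
    exact ⟨h1.symm, e, h2.elim (fun h => Or.inr ⟨h.2, h.1⟩) (fun h => Or.inl ⟨h.2, h.1⟩)⟩⟩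
  loopless := ⟨fun t h => h.1 rfl⟩

/-- `G` has an induced minor of girth at least twelve with the vertices of `T` which contains `T`:
there are disjoint connected branch sets `C t` (`t` a vertex of `T`), each with a vertex of degree at
least three, such that an edge joins `C t` and `C t'` if `t t'` is an edge of `T`, and such that the
graph of all joined pairs has girth at least twelve. -/
def HasInducedMinor [DecidableEq V] [Fintype E] (src dst : E → V) : Prop :=
  ∃ C : Address → Finset V,
    (∀ t, IsConnected src dst (C t) ∧ ∃ x ∈ C t, 3 ≤ properDegree src dst x) ∧
    (∀ t t', t ≠ t' → Disjoint (C t) (C t')) ∧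
    (∀ t t' : Address, TreeEdge t.1 t'.1 → Joined src dst (C t) (C t')) ∧
    12 ≤ (branchGraph src dst C).egirth

theorem indM_of [Fintype V] [DecidableEq V] [Fintype E] [DecidableEq E] (src dst : E → V)
    (h : Pool.Agent.U659.IM.IndM src dst) : HasInducedMinor src dst := by
  obtain ⟨C, h1, h2, h3, h4⟩ := h
  refine ⟨C, h1, h2, ?_, ?_⟩
  · intro t t' h
    apply h3
    obtain ⟨t, ht⟩ := t
    obtain ⟨t', ht'⟩ := t'
    cases h with
    | root => exact Pool.Agent.U659.IM.TEdge.root
    | child b c w hw => exact Pool.Agent.U659.IM.TEdge.child b c w hw
  · rw [show (12 : ℕ∞) = ((12 : ℕ) : ℕ∞) from rfl, SimpleGraph.le_egirth]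
    intro w c hc
    exact_mod_cast h4 w c hc

theorem result :
    ∀ (V E : Type) [Fintype V] [DecidableEq V] [Fintype E] [DecidableEq E] (src dst : E → V),
      ¬ HasInducedMinor src dst →
      (∀ Y : Finset V, (boundary src dst Y).card ≠ 1) →
      (∃ f : E → ℤ, IsFlow src dst f ∧ ∀ e, 1 ≤ |f e| ∧ |f e| ≤ 4) ∧
      ∀ q : ℕ, 5 ≤ q → 0 < bondCharPoly src dst q := by
  intro V E _ _ _ _ src dst hF hb
  have hfl := Pool.Agent.U659.IM.flow_of_no_indM src dst (fun h => hF (indM_of src dst h))
    (fun Y _ => by rw [Finset.sdiff_empty]; exact hb Y)
  obtain ⟨F, hF, hF0⟩ := int_flow src dst (nzf src dst hfl)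
  have hF1 := (isFlow_iff src dst F).mpr hF0
  exact ⟨⟨F, hF1, hF⟩, fun q hq => charPoly_pos src dst F hF1 hF q hq⟩

end Pool.Agent.Results.MP_974d84_co.InducedMinor
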